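import Pool.Agent.H802.EE.Grp
import Pool.Agent.Helper227.SOne

/-! # The tree of the profinite group is primitive recursive -/

set_option autoImplicit false

namespace Pool.Agent.H802.EE

open Encodable Equiv Pool.Agent.Helper227

/-- a numbering of the finite group -/
noncomputable def eF : FF ≃ Fin 144 :=
  Fintype.equivFinOfCardEq (by
    rw [Fintype.card_prod, Fintype.card_perm, Fintype.card_perm]
    decide)

noncomputable instance instF : Primcodable FF := Primcodable.ofEquiv (Fin 144) eF

theorem pp_finite {α : Type} [Primcodable α] [Finite α] (p : α → Prop) : PrimrecPred p := by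
  classical
  exact Primrec.primrecPred (p := p) (Primrec.dom_finite fun a => decide (p a))

theorem blk_prim : Primrec blk := by
  refine Primrec.fin_val_iff.1 ?_
  exact Primrec.nat_mod.comp Primrec.id (Primrec.const 7)

section

variable {R : ℕ → Prop}

theorem con_prim (hR : PrimrecPred R) {α : Type} [Primcodable α] {q : α → ℕ} {x y : α → FF}
    (hq : Primrec q) (hx : Primrec x) (hy : Primrec y) :
    PrimrecPred fun a => con (R (q a)) (x a) (y a) := by
  have h1 : PrimrecPred fun a => (¬ R (q a) ∨ ((x a).2 * cc = cc * (x a).2 ∧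
      Perm.sign (x a).2 = Perm.sign (y a).1)) ∧ (R (q a) ∨ (x a).2 = 1) := by
    refine PrimrecPred.and (PrimrecPred.or (PrimrecPred.not (hR.comp hq)) ?_)
      (PrimrecPred.or (hR.comp hq) ?_)
    · exact (pp_finite fun z : FF × FF => z.1.2 * cc = cc * z.1.2 ∧
        Perm.sign z.1.2 = Perm.sign z.2.1).comp (hx.pair hy)
    · exact (pp_finite fun z : FF => z.2 = 1).comp hx
  refine h1.of_eq fun a => ?_
  unfold con
  by_cases h : R (q a) <;> simp [h]

theorem good_prim (hR : PrimrecPred R) : PrimrecPred fun w : List FF => Good R w := by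
  unfold Good
  refine PP.all_lt (α := List FF) (p := fun w q => con (R q) (w.getD q 1)
    (w.getD (Nat.unpair q).1 1)) ?_ Primrec.list_length
  refine con_prim hR Primrec.snd ?_ ?_
  · exact (Primrec.list_getD 1).comp Primrec.fst Primrec.snd
  · exact (Primrec.list_getD 1).comp Primrec.fst
      (Primrec.fst.comp (Primrec.unpair.comp Primrec.snd))

/-- the action -/
def act1 (z : FF × Fin 7) : ℕ := (rho z.1 z.2 : ℕ)

/-- the inverse action -/
def act2 (z : FF × Fin 7) : ℕ := ((rho z.1)⁻¹ z.2 : ℕ)

theorem act1_prim : Primrec act1 := Primrec.dom_finite _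

theorem act2_prim : Primrec act2 := Primrec.dom_finite _

theorem val_prim : Primrec fun x : List FF × ℕ => val x.1 x.2 := by
  have hd : Primrec fun x : List FF × ℕ => x.2 / 2 :=
    Primrec.nat_div.comp Primrec.snd (Primrec.const 2)
  have hq : Primrec fun x : List FF × ℕ => x.2 / 2 / 7 :=
    Primrec.nat_div.comp hd (Primrec.const 7)
  have hm : Primrec fun x : List FF × ℕ => 7 * (x.2 / 2 / 7) :=
    Primrec.nat_mul.comp (Primrec.const 7) hq
  have hg : Primrec fun x : List FF × ℕ => x.1.getD (x.2 / 2 / 7) 1 :=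
    (Primrec.list_getD 1).comp Primrec.fst hq
  have hb : Primrec fun x : List FF × ℕ => blk (x.2 / 2) := blk_prim.comp hd
  have h1 : Primrec fun x : List FF × ℕ => 7 * (x.2 / 2 / 7) +
      act1 (x.1.getD (x.2 / 2 / 7) 1, blk (x.2 / 2)) :=
    Primrec.nat_add.comp hm (act1_prim.comp (hg.pair hb))
  have h2 : Primrec fun x : List FF × ℕ => 7 * (x.2 / 2 / 7) +
      act2 (x.1.getD (x.2 / 2 / 7) 1, blk (x.2 / 2)) :=
    Primrec.nat_add.comp hm (act2_prim.comp (hg.pair hb))
  have h3 : PrimrecPred fun x : List FF × ℕ => x.2 % 2 = 0 :=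
    Primrec.eq.comp (Primrec.nat_mod.comp Primrec.snd (Primrec.const 2)) (Primrec.const 0)
  refine (Primrec.ite h3 h1 h2).of_eq fun x => ?_
  rfl

theorem words_prim (L : List FF) : Primrec (words L) := by
  refine Primrec.nat_rec₁ (α := List (List FF)) [[]]
    (f := fun _ W => W.flatMap fun w => L.map fun a => w ++ [a]) ?_
  refine Primrec.list_flatMap (α := ℕ × List (List FF)) (f := fun x => x.2)
    (g := fun _ w => L.map fun a => w ++ [a]) Primrec.snd ?_
  refine Primrec.list_map (α := (ℕ × List (List FF)) × List FF) (f := fun _ => L)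
    (g := fun x a => x.2 ++ [a]) (Primrec.const L) ?_
  exact Primrec.list_append.comp (Primrec.snd.comp Primrec.fst)
    (Primrec.list_cons.comp Primrec.snd (Primrec.const []))

theorem tree_prim (hR : PrimrecPred R) : PrimrecPred fun τ : List ℕ => τ ∈ treeOf (GG R) := by
  set L : List FF := (Finset.univ : Finset FF).toList with hL
  have hLm : ∀ a, a ∈ L := fun a => by simp [hL]
  have h1 : PrimrecPred fun τ : List ℕ => ∃ w ∈ words L τ.length,
      Good R w ∧ ∀ i < τ.length, τ.getD i 0 = val w i := by
    refine PP.ex_mem (α := List ℕ) (p := fun τ w => Good R w ∧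
      ∀ i < τ.length, τ.getD i 0 = val w i) ?_ ((words_prim L).comp Primrec.list_length)
    refine PrimrecPred.and ((good_prim hR).comp Primrec.snd) ?_
    refine PP.all_lt (α := List ℕ × List FF) (f := fun x => x.1.length)
      (p := fun x i => x.1.getD i 0 = val x.2 i) ?_ (Primrec.list_length.comp Primrec.fst)
    refine Primrec.eq.comp ?_ ?_
    · exact (Primrec.list_getD 0).comp (Primrec.fst.comp Primrec.fst) Primrec.snd
    · exact val_prim.comp ((Primrec.snd.comp Primrec.fst).pair Primrec.snd)
  refine h1.of_eq fun τ => ?_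
  rw [mem_treeOf]
  refine exists_congr fun w => ?_
  rw [mem_words hLm]

theorem charFun_comp (hR : PrimrecPred R) : Computable (charFun (treeOf (GG R))) := by
  classical
  have h1 : PrimrecPred fun n : ℕ => Denumerable.ofNat (List ℕ) n ∈ treeOf (GG R) :=
    (tree_prim hR).comp (Primrec.ofNat (List ℕ))
  have h2 : Primrec fun n : ℕ => if Denumerable.ofNat (List ℕ) n ∈ treeOf (GG R) then 1 else 0 :=
    Primrec.ite h1 (Primrec.const 1) (Primrec.const 0)
  have h3 : charFun (treeOf (GG R)) =
      fun n : ℕ => if Denumerable.ofNat (List ℕ) n ∈ treeOf (GG R) then 1 else 0 := by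
    funext n
    unfold charFun
    refine if_congr ?_ rfl rfl
    constructor
    · rintro ⟨a, ha, rfl⟩
      rw [Denumerable.ofNat_encode]
      exact ha
    · intro h
      exact ⟨_, h, Denumerable.encode_ofNat n⟩
  rw [h3]
  exact h2.to_comp

theorem branch_eq (τ : List ℕ) : Nat.card {k : ℕ // τ ++ [k] ∈ treeOf (GG R)} =
    Nat.card {r : Fin 7 // τ ++ [7 * (τ.length / 2 / 7) + (r : ℕ)] ∈ treeOf (GG R)} := by
  symm
  refine Nat.card_congr (Equiv.ofBijective
    (fun r => ⟨7 * (τ.length / 2 / 7) + (r.1 : ℕ), r.2⟩) ⟨?_, ?_⟩)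
  · rintro ⟨r, hr⟩ ⟨s, hs⟩ h
    have h1 := congrArg Subtype.val h
    simp only at h1
    apply Subtype.ext
    apply Fin.ext
    change (r : ℕ) = (s : ℕ)
    omega
  · rintro ⟨k, hk⟩
    obtain ⟨w, hw1, hw2, hw3⟩ := (mem_treeOf R).1 hk
    have h1 := hw3 τ.length (by simp)
    have h2 : (τ ++ [k]).getD τ.length 0 = k := by
      simp [List.getD]
    rw [h2] at h1
    unfold val at h1
    have h3 : ∃ r : Fin 7, k = 7 * (τ.length / 2 / 7) + (r : ℕ) := by
      split_ifs at h1
      · exact ⟨_, h1⟩
      · exact ⟨_, h1⟩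
    obtain ⟨r, hr⟩ := h3
    subst hr
    exact ⟨⟨r, hk⟩, rfl⟩

theorem branch_comp (hR : PrimrecPred R) : Computable (branchFun (GG R)) := by
  classical
  have h1 : ∀ r : Fin 7, Primrec fun n : ℕ =>
      if Denumerable.ofNat (List ℕ) n ++ [7 * ((Denumerable.ofNat (List ℕ) n).length / 2 / 7) +
        (r : ℕ)] ∈ treeOf (GG R) then 1 else 0 := by
    intro r
    refine Primrec.ite ((tree_prim hR).comp ?_) (Primrec.const 1) (Primrec.const 0)
    refine Primrec.list_append.comp (Primrec.ofNat (List ℕ)) (Primrec.list_cons.comp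
      (Primrec.nat_add.comp (Primrec.nat_mul.comp (Primrec.const 7) (Primrec.nat_div.comp
        (Primrec.nat_div.comp (Primrec.list_length.comp (Primrec.ofNat (List ℕ)))
          (Primrec.const 2)) (Primrec.const 7))) (Primrec.const _)) (Primrec.const []))
  have h2 : branchFun (GG R) = fun n : ℕ => ∑ r : Fin 7,
      if Denumerable.ofNat (List ℕ) n ++ [7 * ((Denumerable.ofNat (List ℕ) n).length / 2 / 7) +
        (r : ℕ)] ∈ treeOf (GG R) then 1 else 0 := by
    funext n
    unfold branchFun
    rw [branch_eq, Nat.card_eq_fintype_card, Fintype.card_subtype, Finset.card_filter]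
  rw [h2]
  simp only [Fin.sum_univ_seven]
  refine Primrec.to_comp ?_
  exact Primrec.nat_add.comp (Primrec.nat_add.comp (Primrec.nat_add.comp (Primrec.nat_add.comp
    (Primrec.nat_add.comp (Primrec.nat_add.comp (h1 0) (h1 1)) (h1 2)) (h1 3)) (h1 4)) (h1 5))
    (h1 6)

/-- the permutation given by a primitive recursive sequence is computable -/
theorem Phi_comp {u : ℕ → FF} (hu : Primrec u) : Computable fun n => Phi u n := by
  have hq : Primrec fun x : ℕ => x / 7 := Primrec.nat_div.comp Primrec.id (Primrec.const 7)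
  have h1 : Primrec fun x : ℕ => 7 * (x / 7) + act1 (u (x / 7), blk x) :=
    Primrec.nat_add.comp (Primrec.nat_mul.comp (Primrec.const 7) hq)
      (act1_prim.comp ((hu.comp hq).pair blk_prim))
  exact h1.to_comp

end

end Pool.Agent.H802.EE
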