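import Mathlib

/-! # Subgroups of profinite permutation groups given by Turing ideals: definitions -/

set_option autoImplicit false

namespace Pool.Agent.H802.EE

open Encodable

/-- `f` is Turing reducible to `g` (total functions on the natural numbers) -/
def TRed (f g : ℕ → ℕ) : Prop :=
  TuringReducible (fun n => Part.some (f n)) (fun n => Part.some (g n))

/-- the join of two functions -/
def fjoin (f g : ℕ → ℕ) : ℕ → ℕ := fun n => if n % 2 = 0 then f (n / 2) else g (n / 2)

/-- a Turing ideal, given by the set of all functions whose Turing degree belongs to it -/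
structure TuringIdeal (I : Set (ℕ → ℕ)) : Prop where
  nonempty : I.Nonempty
  down : ∀ f g, TRed f g → g ∈ I → f ∈ I
  join : ∀ f g, f ∈ I → g ∈ I → fjoin f g ∈ I

open Classical in
/-- the characteristic function of a set of (codes of) finite strings -/
noncomputable def charFun {α : Type} [Encodable α] (S : Set α) : ℕ → ℕ :=
  fun n => if ∃ a ∈ S, encode a = n then 1 else 0

/-- a Scott ideal: a Turing ideal such that every infinite binary tree computable from a member
has an infinite path in the ideal -/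
structure ScottIdeal (I : Set (ℕ → ℕ)) : Prop extends TuringIdeal I where
  path : ∀ f ∈ I, ∀ T : Set (List Bool), (∀ σ τ, σ <+: τ → τ ∈ T → σ ∈ T) → T.Infinite →
    TRed (charFun T) f →
    ∃ p : ℕ → Bool, (∀ n, (List.range n).map p ∈ T) ∧ (fun n => (p n).toNat) ∈ I

/-- a profinite subgroup of the group of all permutations of the natural numbers: it is closed in
the topology of pointwise convergence and all its orbits are finite -/
structure ProfiniteSubgroup (G : Subgroup (Equiv.Perm ℕ)) : Prop where
  closed : ∀ g : Equiv.Perm ℕ, (∀ N, ∃ h ∈ G, ∀ n < N, h n = g n) → g ∈ G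
  orbits : ∀ n, {m | ∃ g ∈ G, g n = m}.Finite

/-- the sequence `g(0), g⁻¹(0), g(1), g⁻¹(1), ...` -/
def seqOf (g : Equiv.Perm ℕ) (i : ℕ) : ℕ := if i % 2 = 0 then g (i / 2) else g.symm (i / 2)

/-- the tree `T_G` of all initial segments of the sequences `g(0), g⁻¹(0), g(1), g⁻¹(1), ...` for
`g ∈ G` -/
def treeOf (G : Subgroup (Equiv.Perm ℕ)) : Set (List ℕ) :=
  {τ | ∃ g ∈ G, τ = (List.range τ.length).map (seqOf g)}

/-- the branching function of `T_G`: the number of immediate successors of a string (given by its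
code) in `T_G` -/
noncomputable def branchFun (G : Subgroup (Equiv.Perm ℕ)) : ℕ → ℕ :=
  fun n => Nat.card {k : ℕ // Denumerable.ofNat (List ℕ) n ++ [k] ∈ treeOf G}

/-- quantifier-free formulas of the language of groups in the variables `V` -/
inductive QF (V : Type) : Type
  | eq (v w : FreeGroup V) : QF V
  | not (φ : QF V) : QF V
  | and (φ ψ : QF V) : QF V

/-- truth of a quantifier-free formula in a group -/
def QF.Holds {V H : Type} [Group H] (e : V → H) : QF V → Prop
  | .eq v w => FreeGroup.lift e v = FreeGroup.lift e w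
  | .not φ => ¬ φ.Holds e
  | .and φ ψ => φ.Holds e ∧ ψ.Holds e

/-- truth in the group `H` of the formula `∃ x₁ ... x_m ∀ y₁ ... y_n ψ(a, x, y)` with the
parameters `a` -/
def HoldsEA (H : Type) [Group H] {p m n : ℕ} (ψ : QF (Fin p ⊕ Fin m ⊕ Fin n)) (a : Fin p → H) :
    Prop :=
  ∃ x : Fin m → H, ∀ y : Fin n → H, ψ.Holds (Sum.elim a (Sum.elim x y))

/-! ### The subgroup given by an ideal -/

theorem TRed.refl (f : ℕ → ℕ) : TRed f f := TuringReducible.refl _

theorem TRed.trans {f g h : ℕ → ℕ} (h1 : TRed f g) (h2 : TRed g h) : TRed f h :=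
  TuringReducible.trans h1 h2

theorem tred_iff {f g : ℕ → ℕ} : TRed f g ↔
    Nat.RecursiveIn {fun n => Part.some (g n)} (fun n => Part.some (f n)) :=
  RecursiveIn.iff_nat

theorem tred_of_computable {f g : ℕ → ℕ} (hf : Computable f) : TRed f g := hf.computableIn

theorem mem_of_computable {I : Set (ℕ → ℕ)} (hI : TuringIdeal I) {f : ℕ → ℕ}
    (hf : Computable f) : f ∈ I := by
  obtain ⟨g, hg⟩ := hI.nonempty
  exact hI.down f g (tred_of_computable hf) hg

theorem tred_fjoin_left (f g : ℕ → ℕ) : TRed f (fjoin f g) := by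
  rw [tred_iff]
  have h1 : Nat.RecursiveIn {fun n => Part.some (fjoin f g n)} (fun n => Part.some (2 * n)) :=
    Nat.Primrec.recursiveIn (Primrec.nat_iff.1 (Primrec.nat_mul.comp (Primrec.const 2) Primrec.id))
  refine (Nat.RecursiveIn.comp (Nat.RecursiveIn.oracle _ (Set.mem_singleton _)) h1).of_eq
    fun n => ?_
  refine (Part.bind_some _ _).trans ?_
  simp [fjoin]

theorem tred_fjoin_right (f g : ℕ → ℕ) : TRed g (fjoin f g) := by
  rw [tred_iff]
  have h1 : Nat.RecursiveIn {fun n => Part.some (fjoin f g n)} (fun n => Part.some (2 * n + 1)) :=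
    Nat.Primrec.recursiveIn (Primrec.nat_iff.1 (Primrec.succ.comp
      (Primrec.nat_mul.comp (Primrec.const 2) Primrec.id)))
  refine (Nat.RecursiveIn.comp (Nat.RecursiveIn.oracle _ (Set.mem_singleton _)) h1).of_eq
    fun n => ?_
  refine (Part.bind_some _ _).trans ?_
  have h2 : (2 * n + 1) % 2 ≠ 0 := by omega
  have h3 : (2 * n + 1) / 2 = n := by omega
  simp [fjoin, h2, h3]

theorem tred_comp {f g h : ℕ → ℕ} (h1 : TRed f h) (h2 : TRed g h) :
    TRed (fun n => f (g n)) h := by
  rw [tred_iff] at *
  exact (Nat.RecursiveIn.comp h1 h2).of_eq fun n => Part.bind_some _ _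

/-- the inverse of a permutation is computable from the permutation -/
theorem tred_symm (g : Equiv.Perm ℕ) : TRed (fun n => g.symm n) (fun n => g n) := by
  rw [tred_iff]
  set O : Set (ℕ →. ℕ) := {fun n => Part.some (g n)} with hO
  have h1 : Nat.RecursiveIn O (fun p => Part.some (g (Nat.unpair p).2)) := by
    have h2 : Nat.RecursiveIn O (fun p => Part.some (Nat.unpair p).2) :=
      Nat.RecursiveIn.right
    exact (Nat.RecursiveIn.comp (Nat.RecursiveIn.oracle _ (Set.mem_singleton _)) h2).of_eq
      fun p => Part.bind_some _ _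
  have h3 : Nat.RecursiveIn O (fun p => Part.some (Nat.pair (Nat.unpair p).1 (g (Nat.unpair p).2))) := by
    refine (Nat.RecursiveIn.pair Nat.RecursiveIn.left h1).of_eq fun p => ?_
    simp [Seq.seq]
  have h4 : Nat.RecursiveIn O (fun q => Part.some (if (Nat.unpair q).1 = (Nat.unpair q).2 then 0
      else 1)) := by
    refine Nat.Primrec.recursiveIn (Primrec.nat_iff.1 (Primrec.ite ?_ (Primrec.const 0)
      (Primrec.const 1)))
    exact Primrec.eq.comp (Primrec.fst.comp Primrec.unpair) (Primrec.snd.comp Primrec.unpair)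
  have h5 : Nat.RecursiveIn O (fun p => Part.some (if (Nat.unpair p).1 = g (Nat.unpair p).2 then 0
      else 1)) := by
    refine (Nat.RecursiveIn.comp h4 h3).of_eq fun p => ?_
    refine (Part.bind_some _ _).trans ?_
    simp
  refine (Nat.RecursiveIn.rfind h5).of_eq fun n => ?_
  apply Part.eq_some_iff.2
  refine Nat.mem_rfind.2 ⟨?_, fun {m} hm => ?_⟩
  · simp
  · have : n ≠ g m := by
      rintro rfl
      rw [Equiv.symm_apply_apply] at hm
      exact lt_irrefl _ hm
    simp [this]

/-- the subgroup `G_I` of all `g ∈ G` whose Turing degree belongs to the ideal `I` -/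
def GI (G : Subgroup (Equiv.Perm ℕ)) (I : Set (ℕ → ℕ)) (hI : TuringIdeal I) : Subgroup G where
  carrier := {g | (fun n => (g : Equiv.Perm ℕ) n) ∈ I}
  mul_mem' := by
    intro g h hg hh
    refine hI.down _ _ ?_ (hI.join _ _ hg hh)
    exact tred_comp (f := fun n => (g : Equiv.Perm ℕ) n) (g := fun n => (h : Equiv.Perm ℕ) n)
      (tred_fjoin_left _ _) (tred_fjoin_right _ _)
  one_mem' := mem_of_computable hI Computable.id
  inv_mem' := by
    intro g hg
    exact hI.down _ _ (tred_symm (g : Equiv.Perm ℕ)) hg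

theorem mem_GI {G : Subgroup (Equiv.Perm ℕ)} {I : Set (ℕ → ℕ)} {hI : TuringIdeal I} {g : G} :
    g ∈ GI G I hI ↔ (fun n => (g : Equiv.Perm ℕ) n) ∈ I := Iff.rfl

end Pool.Agent.H802.EE
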