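import Pool.Agent.H802.EE.Defs

/-! # The profinite group -/

set_option autoImplicit false

namespace Pool.Agent.H802.EE

open Encodable Equiv

/-- the finite group acting on a block -/
abbrev FF : Type := Perm (Fin 3) × Perm (Fin 4)

/-- the four-cycle -/
abbrev cc : Perm (Fin 4) := finRotate 4

/-- the action on seven points -/
def rho : FF →* Perm (Fin 7) :=
  (permCongrHom (finSumFinEquiv (m := 3) (n := 4))).toMonoidHom.comp
    (Perm.sumCongrHom (Fin 3) (Fin 4))

theorem rho_inj : Function.Injective rho := by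
  unfold rho
  rw [MonoidHom.coe_comp]
  exact (permCongrHom _).injective.comp Perm.sumCongrHom_injective

theorem rho_left (f : FF) (i : Fin 3) :
    rho f (Fin.castAdd 4 i) = Fin.castAdd 4 (f.1 i) := by
  unfold rho
  rw [MonoidHom.comp_apply]
  change (permCongrHom finSumFinEquiv) (Perm.sumCongrHom (Fin 3) (Fin 4) f) (Fin.castAdd 4 i) = _
  change finSumFinEquiv ((Perm.sumCongrHom (Fin 3) (Fin 4) f)
    (finSumFinEquiv.symm (Fin.castAdd 4 i))) = _
  rw [finSumFinEquiv_symm_apply_castAdd]
  rfl

/-- the residue -/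
def blk (x : ℕ) : Fin 7 := ⟨x % 7, Nat.mod_lt _ (by norm_num)⟩

theorem blk_add (q : ℕ) (r : Fin 7) : blk (7 * q + r) = r := by
  apply Fin.ext
  change (7 * q + (r : ℕ)) % 7 = r
  have := r.2
  omega

theorem div_add (q : ℕ) (r : Fin 7) : (7 * q + (r : ℕ)) / 7 = q := by
  have := r.2
  omega

theorem div_blk (x : ℕ) : 7 * (x / 7) + (blk x : ℕ) = x := by
  change 7 * (x / 7) + x % 7 = x
  omega

/-- the permutation given by a sequence of elements of the finite group -/
def Phi : (ℕ → FF) →* Perm ℕ where
  toFun u :=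
    { toFun := fun x => 7 * (x / 7) + (rho (u (x / 7)) (blk x) : ℕ)
      invFun := fun x => 7 * (x / 7) + ((rho (u (x / 7)))⁻¹ (blk x) : ℕ)
      left_inv := fun x => by
        simp only [div_add, blk_add]
        have h1 : (rho (u (x / 7)))⁻¹ ((rho (u (x / 7))) (blk x)) = blk x :=
          Equiv.symm_apply_apply _ _
        rw [h1, div_blk]
      right_inv := fun x => by
        simp only [div_add, blk_add]
        have h1 : (rho (u (x / 7))) ((rho (u (x / 7)))⁻¹ (blk x)) = blk x :=
          Equiv.apply_symm_apply _ _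
        rw [h1, div_blk] }
  map_one' := by
    ext x
    change 7 * (x / 7) + (rho 1 (blk x) : ℕ) = x
    rw [map_one, Perm.one_apply, div_blk]
  map_mul' u v := by
    ext x
    change 7 * (x / 7) + (rho (u (x / 7) * v (x / 7)) (blk x) : ℕ) =
      7 * ((7 * (x / 7) + (rho (v (x / 7)) (blk x) : ℕ)) / 7) +
        (rho (u ((7 * (x / 7) + (rho (v (x / 7)) (blk x) : ℕ)) / 7))
          (blk (7 * (x / 7) + (rho (v (x / 7)) (blk x) : ℕ))) : ℕ)
    rw [div_add, blk_add, map_mul, Perm.mul_apply]

theorem Phi_apply (u : ℕ → FF) (x : ℕ) :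
    Phi u x = 7 * (x / 7) + (rho (u (x / 7)) (blk x) : ℕ) := rfl

theorem Phi_symm (u : ℕ → FF) (x : ℕ) :
    (Phi u).symm x = 7 * (x / 7) + ((rho (u (x / 7)))⁻¹ (blk x) : ℕ) := rfl

theorem Phi_block (u : ℕ → FF) (q : ℕ) (r : Fin 7) :
    Phi u (7 * q + r) = 7 * q + (rho (u q) r : ℕ) := by
  rw [Phi_apply, div_add, blk_add]

theorem eq_of_block {u v : ℕ → FF} {q : ℕ}
    (h : ∀ r : Fin 7, Phi u (7 * q + r) = Phi v (7 * q + r)) : u q = v q := by
  apply rho_inj
  ext r
  have h1 := h r
  rw [Phi_block, Phi_block] at h1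
  omega

theorem Phi_inj : Function.Injective Phi := by
  intro u v h
  funext q
  exact eq_of_block fun r => by rw [h]

/-- the condition which relates two blocks -/
def con (b : Prop) (x y : FF) : Prop :=
  (b → x.2 * cc = cc * x.2 ∧ Perm.sign x.2 = Perm.sign y.1) ∧ (¬ b → x.2 = 1)

variable (R : ℕ → Prop)

/-- the sequences which satisfy all conditions -/
def Ok (u : ℕ → FF) : Prop := ∀ q, con (R q) (u q) (u (Nat.unpair q).1)

/-- the group of these sequences -/
def OkSub : Subgroup (ℕ → FF) where
  carrier := {u | Ok R u}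
  mul_mem' := by
    intro u v hu hv q
    refine ⟨fun h => ⟨?_, ?_⟩, fun h => ?_⟩
    · have h1 := ((hu q).1 h).1
      have h2 := ((hv q).1 h).1
      change (u q).2 * (v q).2 * cc = cc * ((u q).2 * (v q).2)
      rw [mul_assoc, h2, ← mul_assoc, h1, mul_assoc]
    · have h1 := ((hu q).1 h).2
      have h2 := ((hv q).1 h).2
      change Perm.sign ((u q).2 * (v q).2) =
        Perm.sign ((u (Nat.unpair q).1).1 * (v (Nat.unpair q).1).1)
      rw [map_mul, map_mul, h1, h2]
    · change (u q).2 * (v q).2 = 1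
      rw [(hu q).2 h, (hv q).2 h, mul_one]
  one_mem' := by
    intro q
    refine ⟨fun h => ⟨?_, ?_⟩, fun h => rfl⟩
    · change 1 * cc = cc * 1
      rw [one_mul, mul_one]
    · change Perm.sign 1 = Perm.sign 1
      rfl
  inv_mem' := by
    intro u hu q
    refine ⟨fun h => ⟨?_, ?_⟩, fun h => ?_⟩
    · have h1 := ((hu q).1 h).1
      change (u q).2⁻¹ * cc = cc * (u q).2⁻¹
      have h2 : Commute (u q).2 cc := h1
      exact h2.inv_left
    · have h1 := ((hu q).1 h).2
      change Perm.sign (u q).2⁻¹ = Perm.sign (u (Nat.unpair q).1).1⁻¹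
      rw [Perm.sign_inv, Perm.sign_inv, h1]
    · change (u q).2⁻¹ = 1
      rw [(hu q).2 h, inv_one]

/-- the profinite group -/
def GG : Subgroup (Perm ℕ) := (OkSub R).map Phi

theorem mem_GG {g : Perm ℕ} : g ∈ GG R ↔ ∃ u, Ok R u ∧ Phi u = g := by
  unfold GG
  rw [Subgroup.mem_map]
  rfl

theorem unpair_le (q : ℕ) : (Nat.unpair q).1 ≤ q := Nat.unpair_left_le q

theorem GG_profinite : ProfiniteSubgroup (GG R) where
  closed := by
    intro g hg
    have h1 : ∀ N, ∃ u, Ok R u ∧ ∀ n < N, Phi u n = g n := by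
      intro N
      obtain ⟨h, hh, hN⟩ := hg N
      obtain ⟨u, hu, rfl⟩ := (mem_GG R).1 hh
      exact ⟨u, hu, hN⟩
    choose u hu1 hu2 using h1
    have hag : ∀ q N, 7 * (q + 1) ≤ N → u N q = u (7 * (q + 1)) q := by
      intro q N hN
      refine eq_of_block (u := u N) (v := u (7 * (q + 1))) fun r => ?_
      have hr := r.2
      rw [hu2 N _ (by omega), hu2 (7 * (q + 1)) _ (by omega)]
    rw [mem_GG]
    refine ⟨fun q => u (7 * (q + 1)) q, fun q => ?_, ?_⟩
    · have h2 := hu1 (7 * (q + 1)) q
      rw [hag (Nat.unpair q).1 (7 * (q + 1)) (by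
        have := unpair_le q
        omega)] at h2
      exact h2
    · ext x
      rw [Phi_apply]
      have h3 := hu2 (7 * (x / 7 + 1)) x (by omega)
      rw [Phi_apply] at h3
      exact h3
  orbits := by
    intro n
    refine (Set.finite_lt_nat (7 * (n / 7) + 7)).subset ?_
    rintro m ⟨g, hg, rfl⟩
    obtain ⟨u, hu, rfl⟩ := (mem_GG R).1 hg
    change Phi u n < _
    rw [Phi_apply]
    have := (rho (u (n / 7)) (blk n)).2
    omega

/-! ### Finite sequences -/

/-- the extension of a finite sequence -/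
noncomputable def extd (w : List FF) : ℕ → FF := by
  classical
  exact fun q => if q < w.length then w.getD q 1 else
    (1, if R q ∧ (Nat.unpair q).1 < w.length ∧
      Perm.sign (w.getD (Nat.unpair q).1 1).1 = -1 then cc else 1)

/-- the finite sequences which satisfy the conditions -/
def Good (w : List FF) : Prop :=
  ∀ q < w.length, con (R q) (w.getD q 1) (w.getD (Nat.unpair q).1 1)

theorem sign_cc : Perm.sign cc = -1 := by decide

theorem extd_ok {w : List FF} (hw : Good R w) : Ok R (extd R w) := by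
  classical
  intro q
  unfold extd
  by_cases h : q < w.length
  · have h1 : (Nat.unpair q).1 < w.length := lt_of_le_of_lt (unpair_le q) h
    rw [if_pos h, if_pos h1]
    exact hw q h
  · rw [if_neg h]
    refine ⟨fun hR => ⟨?_, ?_⟩, fun hR => ?_⟩
    · simp only
      split_ifs
      · rfl
      · rw [one_mul, mul_one]
    · simp only
      by_cases h1 : (Nat.unpair q).1 < w.length
      · rw [if_pos h1]
        by_cases h2 : Perm.sign (w.getD (Nat.unpair q).1 1).1 = -1
        · rw [if_pos ⟨hR, h1, h2⟩, h2, sign_cc]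
        · rw [if_neg (fun h3 => h2 h3.2.2)]
          rcases Int.units_eq_one_or (Perm.sign (w.getD (Nat.unpair q).1 1).1) with h3 | h3
          · rw [h3, Perm.sign_one]
          · exact absurd h3 h2
      · rw [if_neg h1, if_neg (fun h3 => h1 h3.2.1)]
        simp
    · simp only
      rw [if_neg (fun h3 => hR h3.1)]

/-- the value of the sequence given by a finite sequence -/
def val (w : List FF) (i : ℕ) : ℕ :=
  if i % 2 = 0 then 7 * ((i / 2) / 7) + (rho (w.getD ((i / 2) / 7) 1) (blk (i / 2)) : ℕ)
  else 7 * ((i / 2) / 7) + ((rho (w.getD ((i / 2) / 7) 1))⁻¹ (blk (i / 2)) : ℕ)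

theorem val_eq {w : List FF} {u : ℕ → FF} {i : ℕ} (h : w.getD ((i / 2) / 7) 1 = u ((i / 2) / 7)) :
    val w i = seqOf (Phi u) i := by
  unfold val seqOf
  rw [h, Phi_apply, Phi_symm]

theorem mem_treeOf {τ : List ℕ} : τ ∈ treeOf (GG R) ↔
    ∃ w : List FF, w.length = τ.length ∧ Good R w ∧ ∀ i < τ.length, τ.getD i 0 = val w i := by
  constructor
  · rintro ⟨g, hg, hτ⟩
    obtain ⟨u, hu, rfl⟩ := (mem_GG R).1 hg
    have hget : ∀ q < τ.length, ((List.range τ.length).map u).getD q 1 = u q := by
      intro q hq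
      simp [List.getD, hq]
    refine ⟨(List.range τ.length).map u, by simp, fun q hq => ?_, fun i hi => ?_⟩
    · simp only [List.length_map, List.length_range] at hq
      rw [hget q hq, hget _ (lt_of_le_of_lt (unpair_le q) hq)]
      exact hu q
    · rw [val_eq (u := u) (hget _ (by omega))]
      conv_lhs => rw [hτ]
      simp [List.getD, hi]
  · rintro ⟨w, hw1, hw2, hw3⟩
    refine ⟨Phi (extd R w), (mem_GG R).2 ⟨_, extd_ok R hw2, rfl⟩, ?_⟩
    refine List.ext_getElem (by simp) fun i h1 h2 => ?_
    have h3 := hw3 i h1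
    rw [List.getD_eq_getElem _ _ h1] at h3
    rw [h3, List.getElem_map, List.getElem_range]
    apply val_eq
    unfold extd
    rw [if_pos (by omega)]

/-- all sequences of a given length -/
def words (L : List FF) (n : ℕ) : List (List FF) :=
  Nat.rec [[]] (fun _ W => W.flatMap fun w => L.map fun a => w ++ [a]) n

theorem words_succ (L : List FF) (n : ℕ) :
    words L (n + 1) = (words L n).flatMap fun w => L.map fun a => w ++ [a] := rfl

theorem mem_words {L : List FF} (hL : ∀ a, a ∈ L) {n : ℕ} : ∀ {w : List FF},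
    w ∈ words L n ↔ w.length = n := by
  induction n with
  | zero =>
    intro w
    simp [words]
  | succ n ih =>
    intro w
    rw [words_succ, List.mem_flatMap]
    constructor
    · rintro ⟨v, hv, hw⟩
      rw [List.mem_map] at hw
      obtain ⟨a, -, rfl⟩ := hw
      simp [ih.1 hv]
    · intro hw
      refine ⟨w.take n, ih.2 (by simp [hw]), ?_⟩
      rw [List.mem_map]
      refine ⟨w.getD n 1, hL _, ?_⟩
      refine List.ext_getElem (by simp [hw]) fun i h1 h2 => ?_
      by_cases h3 : i < n
      · rw [List.getElem_append_left (by simp; omega), List.getElem_take]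
      · have h4 : i = n := by omega
        subst h4
        rw [List.getElem_append_right (by simp)]
        simp [List.getD, h2]

end Pool.Agent.H802.EE
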