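import Pool.Agent.Y785.EN.Cone
import Pool.Agent.Helper227.RD.Jump
import Pool.Agent.H802.EE.Defs

/-! # A Scott ideal which does not contain a given noncomputable set -/

set_option autoImplicit false

namespace Pool.Agent.H802.EE

open Encodable Pool.Agent.Helper227 Pool.Agent.Helper227.EN Pool.Agent.Y785.EN
open Nat.Partrec (Code)

theorem tLe_refl (A : ℕ → Bool) : TLe A A := TuringReducible.refl _

theorem isClosed_PiC' (D : List Bool × List Bool → Prop) (X : ℕ → Bool) : IsClosed (PiC D X) := by
  have : PiC D X = ⋂ s, {y | ¬ D (pre X s, pre y s)} := by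
    ext y; simp [PiC]
  rw [this]
  refine isClosed_iInter fun s => ?_
  have hcont : Continuous (fun y : ℕ → Bool => fun i : Fin s => y i) := by fun_prop
  have h2 : {y : ℕ → Bool | ¬ D (pre X s, pre y s)} =
      (fun y : ℕ → Bool => fun i : Fin s => y i) ⁻¹' {v | ¬ D (pre X s, List.ofFn v)} := by
    ext y
    simp only [Set.mem_ofPred_eq, Set.mem_preimage]
    have : List.ofFn (fun i : Fin s => y i) = pre y s := by
      refine List.ext_getElem (by simp) fun i h1 h2 => ?_
      simp [getElem_pre]
    rw [this]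
  rw [h2]
  exact (isClosed_discrete _).preimage hcont

/-- cone avoidance for effectively closed classes -/
theorem cone_basis {C Z : ℕ → Bool} (hC : ¬ TLe C Z) {D : List Bool × List Bool → Prop}
    (hD : S1 D) (hne : (PiC D Z).Nonempty) : ∃ P ∈ PiC D Z, ¬ TLe C (join Z P) := by
  classical
  let St := {D : List Bool × List Bool → Prop // S1 D ∧ (PiC D Z).Nonempty}
  have hstep : ∀ (c : Code) (p : St), ∃ p' : St, PiC p'.1 Z ⊆ PiC p.1 Z ∧
      ∀ P ∈ PiC p'.1 Z, ¬ cpt2 c C Z P := by
    rintro c ⟨D1, hD1, hne1⟩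
    have hzz : TLe (join Z Z) Z := join_tLe (tLe_refl Z) (tLe_refl Z)
    have hno : ¬ TLe C (join Z Z) := fun h => hC (h.trans hzz)
    obtain ⟨D2, hD2, hne2, hsub, hP⟩ := avoid_step hno hD1 hne1 c
    obtain ⟨D3, hD3, eD3⟩ := PiC_of_tLe hzz hD2
    refine ⟨⟨D3, hD3, ?_⟩, ?_, ?_⟩
    · rw [eD3]
      exact hne2
    · simp only
      rw [eD3]
      exact hsub
    · simp only
      rw [eD3]
      exact hP
  choose f hf1 hf2 using hstep
  let g : ℕ → St := fun n => Nat.rec ⟨D, hD, hne⟩ (fun n p => f (Denumerable.ofNat Code n) p) n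
  have hg : ∀ n, g (n + 1) = f (Denumerable.ofNat Code n) (g n) := fun n => rfl
  obtain ⟨P, hP⟩ := IsCompact.nonempty_iInter_of_sequence_nonempty_isCompact_isClosed
    (fun n => PiC (g n).1 Z) (fun n => by simp only [hg]; exact hf1 _ _) (fun n => (g n).2.2)
    (isClosed_PiC' _ _).isCompact (fun n => isClosed_PiC' _ _)
  rw [Set.mem_iInter] at hP
  refine ⟨P, hP 0, fun hle => ?_⟩
  obtain ⟨c, hc⟩ := exists_cpt2 hle
  have h1 := hP (encode c + 1)
  simp only [hg] at h1
  have h2 := hf2 (Denumerable.ofNat Code (encode c)) (g (encode c)) P h1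
  rw [Denumerable.ofNat_encode] at h2
  exact h2 hc

/-- the `c`-th class -/
def DC (c : Code) (x : List Bool × List Bool) : Prop := (c.eval (encode x)).Dom

theorem s1_DC (c : Code) : S1 (DC c) :=
  s1_eval.comp (f := fun x : List Bool × List Bool => (c, encode x))
    ((Primrec.const c).pair Primrec.encode)

theorem exists_DC {D : List Bool × List Bool → Prop} (hD : S1 D) : ∃ c, DC c = D := by
  obtain ⟨c, hc⟩ := Nat.Partrec.Code.exists_code.1 hD.re
  refine ⟨c, ?_⟩
  funext x
  apply propext
  unfold DC
  rw [hc]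
  simp [Part.assert]

/-- the even part -/
def ev2 (X : ℕ → Bool) : ℕ → Bool := fun n => X (2 * n)

theorem ev2_join (X Y : ℕ → Bool) : ev2 (join X Y) = X := by
  funext n
  unfold ev2 join
  have h1 : (2 * n) % 2 = 0 := by omega
  have h2 : 2 * n / 2 = n := by omega
  rw [if_pos h1, h2]

open Classical in
/-- the next set -/
noncomputable def nxt (K : ℕ → Bool) (n : ℕ) (Z : ℕ → Bool) : ℕ → Bool :=
  if h : ∃ P ∈ PiC (DC (Denumerable.ofNat Code (Nat.unpair n).2))
      (ev2^[n - (Nat.unpair n).1] Z), ¬ TLe K (join Z P) then h.choose else fun _ => false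

/-- the chain of sets -/
noncomputable def chain (K : ℕ → Bool) : ℕ → ℕ → Bool
  | 0 => fun _ => false
  | n + 1 => join (chain K n) (nxt K n (chain K n))

theorem chain_succ (K : ℕ → Bool) (n : ℕ) :
    chain K (n + 1) = join (chain K n) (nxt K n (chain K n)) := rfl

theorem chain_mono (K : ℕ → Bool) {m n : ℕ} (h : m ≤ n) : TLe (chain K m) (chain K n) := by
  induction n, h using Nat.le_induction with
  | base => exact tLe_refl _
  | succ n hn ih => exact ih.trans (tLe_join_left _ _)

theorem chain_ev2 (K : ℕ → Bool) (i k : ℕ) : ev2^[k] (chain K (i + k)) = chain K i := by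
  induction k with
  | zero => rfl
  | succ k ih =>
    rw [Function.iterate_succ_apply, ← add_assoc, chain_succ, ev2_join, ih]

theorem tLe_false (A : ℕ → Bool) : TLe (fun _ => false) A := by
  have h : Partrec (chi fun _ => false) :=
    (Computable.const (α := ℕ) (0 : ℕ)).partrec
  exact h.recursiveIn

theorem chain_avoid {K : ℕ → Bool} (hK : ¬ TLe K fun _ => false) (n : ℕ) :
    ¬ TLe K (chain K n) := by
  induction n with
  | zero => exact hK
  | succ n ih =>
    rw [chain_succ]
    unfold nxt
    split_ifs with h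
    · exact h.choose_spec.2
    · intro h1
      exact ih (h1.trans (join_tLe (tLe_refl _) (tLe_false _)))

theorem chain_class {K : ℕ → Bool} (hK : ¬ TLe K fun _ => false) (i : ℕ)
    {D : List Bool × List Bool → Prop} (hD : S1 D) (hne : (PiC D (chain K i)).Nonempty) :
    ∃ m, ∃ P ∈ PiC D (chain K i), TLe P (chain K m) := by
  obtain ⟨c, rfl⟩ := exists_DC hD
  set n := Nat.pair i (encode c) with hn
  have h1 : (Nat.unpair n).1 = i := by rw [hn, Nat.unpair_pair]
  have h2 : Denumerable.ofNat Code (Nat.unpair n).2 = c := by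
    rw [hn, Nat.unpair_pair, Denumerable.ofNat_encode]
  have hin : i ≤ n := Nat.left_le_pair _ _
  have h3 : ev2^[n - i] (chain K n) = chain K i := by
    have := chain_ev2 K i (n - i)
    rwa [Nat.add_sub_cancel' hin] at this
  obtain ⟨D', hD', eD'⟩ := PiC_of_tLe (chain_mono K hin) (s1_DC c)
  obtain ⟨P, hP, hPK⟩ := cone_basis (chain_avoid hK n) hD' (by rw [eD']; exact hne)
  rw [eD'] at hP
  have h4 : ∃ P ∈ PiC (DC (Denumerable.ofNat Code (Nat.unpair n).2))
      (ev2^[n - (Nat.unpair n).1] (chain K n)), ¬ TLe K (join (chain K n) P) := by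
    rw [h1, h2, h3]
    exact ⟨P, hP, hPK⟩
  refine ⟨n + 1, nxt K n (chain K n), ?_, tLe_join_right _ _⟩
  have h5 : nxt K n (chain K n) = h4.choose := by
    unfold nxt
    rw [dif_pos h4]
  have h6 := h4.choose_spec.1
  rw [h5]
  simpa only [h1, h2, h3] using h6

/-- the ideal of all functions computable from a member of the chain -/
def idl (K : ℕ → Bool) : Set (ℕ → ℕ) :=
  {f | ∃ n, RecursiveIn {chi (chain K n)} fun x => Part.some (f x)}

theorem rec_iff {B : ℕ → Bool} {f : ℕ → ℕ} : RecursiveIn {chi B} (fun x => Part.some (f x)) ↔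
    SI B fun x : ℕ × ℕ => f x.1 = x.2 := by
  refine (SI.iff_recIn (f := fun x => Part.some (f x))).trans ?_
  constructor
  · intro h
    exact h.of_eq fun x => by rw [Part.mem_some_iff, eq_comm]
  · intro h
    exact h.of_eq fun x => by rw [Part.mem_some_iff, eq_comm]

theorem rec_mono {A B : ℕ → Bool} (h : TLe A B) {f : ℕ → ℕ}
    (hf : RecursiveIn {chi A} fun x => Part.some (f x)) :
    RecursiveIn {chi B} fun x => Part.some (f x) := by
  refine hf.subst fun g hg => ?_
  rw [Set.mem_singleton_iff] at hg
  rw [hg]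
  exact h

theorem idl_ideal (K : ℕ → Bool) : TuringIdeal (idl K) where
  nonempty := ⟨id, 0, (Computable.id (α := ℕ)).computableIn⟩
  down := by
    rintro f g hfg ⟨n, hn⟩
    refine ⟨n, RecursiveIn.subst hfg fun h hh => ?_⟩
    obtain rfl : h = fun n => Part.some (g n) := hh
    exact hn
  join := by
    rintro f g ⟨m, hm⟩ ⟨n, hn⟩
    refine ⟨max m n, ?_⟩
    have h1 := rec_iff.1 (rec_mono (chain_mono K (le_max_left m n)) hm)
    have h2 := rec_iff.1 (rec_mono (chain_mono K (le_max_right m n)) hn)
    rw [rec_iff]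
    have h3 : SI (chain K (max m n)) fun x : ℕ × ℕ =>
        (x.1 % 2 = 0 ∧ f (x.1 / 2) = x.2) ∨ (x.1 % 2 = 1 ∧ g (x.1 / 2) = x.2) := by
      refine SI.or (SI.and (SI.of_prim ?_) (h1.comp (f := fun x : ℕ × ℕ => (x.1 / 2, x.2)) ?_))
        (SI.and (SI.of_prim ?_) (h2.comp (f := fun x : ℕ × ℕ => (x.1 / 2, x.2)) ?_))
      · exact Primrec.eq.comp (Primrec.nat_mod.comp Primrec.fst (Primrec.const 2))
          (Primrec.const 0)
      · exact (Primrec.nat_div.comp Primrec.fst (Primrec.const 2)).pair Primrec.snd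
      · exact Primrec.eq.comp (Primrec.nat_mod.comp Primrec.fst (Primrec.const 2))
          (Primrec.const 1)
      · exact (Primrec.nat_div.comp Primrec.fst (Primrec.const 2)).pair Primrec.snd
    refine h3.of_eq fun x => ?_
    unfold fjoin
    rcases Nat.mod_two_eq_zero_or_one x.1 with h | h
    · simp [h]
    · simp [h]

/-- infinite binary trees have infinite paths -/
theorem konig {T : Set (List Bool)} (hT : ∀ σ τ, σ <+: τ → τ ∈ T → σ ∈ T) (hinf : T.Infinite) :
    ∃ P : ℕ → Bool, ∀ n, pre P n ∈ T := by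
  have hex : ∀ n, ∃ τ ∈ T, n ≤ τ.length := by
    intro n
    by_contra hcon
    push Not at hcon
    refine hinf ((List.finite_length_lt Bool n).subset fun τ hτ => ?_)
    exact hcon τ hτ
  obtain ⟨P, hP⟩ := IsCompact.nonempty_iInter_of_sequence_nonempty_isCompact_isClosed
    (fun n => {P : ℕ → Bool | pre P n ∈ T}) (fun n P hP => hT _ _ (pre_prefix P n.le_succ) hP)
    (fun n => by
      obtain ⟨τ, hτ, hn⟩ := hex n
      refine ⟨fun i => τ.getD i false, ?_⟩
      have : pre (fun i => τ.getD i false) n = τ.take n := by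
        refine List.ext_getElem (by simp [hn]) fun i h1 h2 => ?_
        rw [getElem_pre]
        have h3 : i < τ.length := by
          rw [length_pre] at h1
          omega
        rw [List.getD_eq_getElem _ _ h3, List.getElem_take]
      change pre _ n ∈ T
      rw [this]
      exact hT _ _ (List.take_prefix _ _) hτ)
    (by
      refine IsClosed.isCompact ?_
      have : {P : ℕ → Bool | pre P 0 ∈ T} = {P : ℕ → Bool | ([] : List Bool) ∈ T} := by
        ext P
        simp [pre]
      rw [this]
      exact isClosed_const)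
    (fun n => by
      have hcont : Continuous (fun y : ℕ → Bool => fun i : Fin n => y i) := by fun_prop
      have h2 : {y : ℕ → Bool | pre y n ∈ T} =
          (fun y : ℕ → Bool => fun i : Fin n => y i) ⁻¹' {v | List.ofFn v ∈ T} := by
        ext y
        simp only [Set.mem_ofPred_eq, Set.mem_preimage]
        have : List.ofFn (fun i : Fin n => y i) = pre y n := by
          refine List.ext_getElem (by simp) fun i h1 h2 => ?_
          simp [getElem_pre]
        rw [this]
      rw [h2]
      exact (isClosed_discrete _).preimage hcont)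
  rw [Set.mem_iInter] at hP
  exact ⟨P, hP⟩

theorem idl_scott {K : ℕ → Bool} (hK : ¬ TLe K fun _ => false) : ScottIdeal (idl K) where
  toTuringIdeal := idl_ideal K
  path := by
    classical
    rintro f ⟨n, hn⟩ T hT hinf hTf
    have h1 : RecursiveIn {chi (chain K n)} fun x => Part.some (charFun T x) := by
      refine RecursiveIn.subst hTf fun h hh => ?_
      obtain rfl : h = fun n => Part.some (f n) := hh
      exact hn
    obtain ⟨E, hE, mE, eE⟩ := rec_iff.1 h1
    let D : List Bool × List Bool → Prop := fun x => ∃ i : ℕ, i ≤ x.2.length ∧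
      E (x.1, (encode (x.2.take i), 0))
    have hD : S1 D := by
      refine S1.ex (S1.and (S1.of_prim ?_) (hE.comp ?_))
      · exact Primrec.nat_le.comp Primrec.snd (Primrec.list_length.comp
          (Primrec.snd.comp Primrec.fst))
      · exact (Primrec.fst.comp Primrec.fst).pair ((Primrec.encode.comp
          (Primrec.list_take.comp Primrec.snd (Primrec.snd.comp Primrec.fst))).pair
            (Primrec.const 0))
    have hmem : ∀ σ : List Bool, charFun T (encode σ) = 0 ↔ σ ∉ T := by
      intro σ
      unfold charFun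
      by_cases h : σ ∈ T
      · rw [if_pos ⟨σ, h, rfl⟩]
        simp [h]
      · rw [if_neg]
        · simp [h]
        · rintro ⟨a, ha, hae⟩
          rw [encode_injective hae] at ha
          exact h ha
    have hP : ∀ P, P ∈ PiC D (chain K n) ↔ ∀ i, pre P i ∈ T := by
      intro P
      constructor
      · intro h i
        by_contra hcon
        obtain ⟨s, hs⟩ := (eE (encode (pre P i), 0)).1 ((hmem _).2 hcon)
        refine h (max s i) ⟨i, ?_, ?_⟩
        · rw [length_pre]
          exact le_max_right _ _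
        · simp only
          rw [take_pre _ _ _ (le_max_right _ _)]
          exact mE _ _ _ (pre_prefix _ (le_max_left _ _)) hs
      · rintro h s ⟨i, hi, hEi⟩
        simp only [length_pre] at hi
        simp only at hEi
        rw [take_pre _ _ _ hi] at hEi
        exact (hmem _).1 ((eE (encode (pre P i), 0)).2 ⟨s, hEi⟩) (h i)
    obtain ⟨P0, hP0⟩ := konig hT hinf
    obtain ⟨m, P, hP1, hP2⟩ := chain_class hK n hD ⟨P0, (hP P0).2 hP0⟩
    exact ⟨P, (hP P).1 hP1, m, hP2⟩

theorem not_mem_idl {K : ℕ → Bool} (hK : ¬ TLe K fun _ => false) :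
    (fun n => (K n).toNat) ∉ idl K := by
  rintro ⟨n, hn⟩
  exact chain_avoid hK n hn

end Pool.Agent.H802.EE
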